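import Pool.Agent.PFE.StmtsE1

/-! Squad PFE, part E1, row CFS: the Frobenius form of the twisted truncated polynomial algebra and
its Euler derivation. -/

set_option autoImplicit false

open scoped BigOperators

noncomputable section

namespace Pool.Agent.PFE.H25

open Pool.Agent.PFE Pool.Agent.PFC.B1

section

variable {K S C X : Type} [Field K] [Ring S] [Algebra K S] [Ring C] [Algebra K C] [Group X]
    [Fintype X] {G : GS K S X} {l : ℕ} {χ : X →* K} (Q : CC K S C X G l χ)

include Q in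
theorem y_pow_zero {k : ℕ} (hk : l ≤ k) : Q.y ^ k = 0 := by
  obtain ⟨m, rfl⟩ := Nat.exists_eq_add_of_le hk
  rw [pow_add, Q.yl, zero_mul]

theorem y_pow_i (k : ℕ) (s : S) : Q.y ^ k * Q.i s = Q.i ((G.sg χ ^ k) s) * Q.y ^ k := by
  induction k with
  | zero => simp
  | succ k ih =>
    rw [pow_succ', mul_assoc, ih, ← mul_assoc, Q.ys, mul_assoc, pow_succ' (G.sg χ),
      Module.End.mul_apply]

/-- linear maps which agree on the `i(s) y^k` are equal -/
theorem ext_gen {M : Type} [AddCommGroup M] [Module K M] {f g : C →ₗ[K] M}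
    (h : ∀ s k, k < l → f (Q.i s * Q.y ^ k) = g (Q.i s * Q.y ^ k)) (a : C) : f a = g a := by
  rw [← Q.ex a, map_sum, map_sum]
  exact Finset.sum_congr rfl fun k hk => h _ k (Finset.mem_range.mp hk)

theorem co_gen {k j : ℕ} (hk : k < l) (hj : j < l) (s : S) :
    Q.co k (Q.i s * Q.y ^ j) = if k = j then s else 0 := by
  classical
  have h := Q.un (Pi.single j s) k hk
  rw [Finset.sum_eq_single j] at h
  · rw [Pi.single_eq_same] at h
    rw [h, Pi.single_apply]
  · intro m _ hm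
    rw [Pi.single_eq_of_ne hm, map_zero, zero_mul]
  · intro hj'
    exact absurd (Finset.mem_range.mpr hj) hj'

/-- the form -/
def t0 (Q : CC K S C X G l χ) (τ : S →ₗ[K] K) : C →ₗ[K] K := τ.comp (Q.co (l - 1))

theorem t0_gen (hl : 2 ≤ l) (τ : S →ₗ[K] K) (s : S) (j : ℕ) :
    t0 Q τ (Q.i s * Q.y ^ j) = if j = l - 1 then τ s else 0 := by
  by_cases hj : j < l
  · unfold t0
    rw [LinearMap.comp_apply, co_gen Q (by omega) hj]
    by_cases h : j = l - 1
    · rw [if_pos h.symm, if_pos h]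
    · rw [if_neg (fun h' => h h'.symm), if_neg h, map_zero]
  · rw [y_pow_zero Q (by omega), mul_zero, map_zero, if_neg (by omega)]

theorem mul_gen (hσ : ∀ a b, G.sg χ (a * b) = G.sg χ a * G.sg χ b) (s s' : S) (k k' : ℕ) :
    Q.i s * Q.y ^ k * (Q.i s' * Q.y ^ k') = Q.i (s * (G.sg χ ^ k) s') * Q.y ^ (k + k') := by
  rw [mul_assoc, ← mul_assoc (Q.y ^ k), y_pow_i, map_mul, pow_add]
  simp only [mul_assoc]

/-- the Euler derivation -/
def eul (Q : CC K S C X G l χ) : C →ₗ[K] C :=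
  ∑ k ∈ Finset.range l, (k : K) •
    ((LinearMap.mulRight K (Q.y ^ k)).comp (Q.i.toLinearMap.comp (Q.co k)))

theorem eul_apply (a : C) :
    eul Q a = ∑ k ∈ Finset.range l, (k : K) • (Q.i (Q.co k a) * Q.y ^ k) := by
  unfold eul
  rw [LinearMap.sum_apply]
  rfl

theorem eul_gen (s : S) (j : ℕ) : eul Q (Q.i s * Q.y ^ j) = (j : K) • (Q.i s * Q.y ^ j) := by
  by_cases hj : j < l
  · rw [eul_apply, Finset.sum_eq_single j]
    · rw [co_gen Q hj hj, if_pos rfl]
    · intro k hk hkj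
      rw [co_gen Q (Finset.mem_range.mp hk) hj, if_neg hkj, map_zero, zero_mul, smul_zero]
    · intro hj'
      exact absurd (Finset.mem_range.mpr hj) hj'
  · rw [y_pow_zero Q (by omega), mul_zero, map_zero, smul_zero]

theorem y_comm (w : C) : ∃ w' : C, Q.y * w = w' * Q.y := by
  refine ⟨∑ k ∈ Finset.range l, Q.i (G.sg χ (Q.co k w)) * Q.y ^ k, ?_⟩
  conv_lhs => rw [← Q.ex w]
  rw [Finset.mul_sum, Finset.sum_mul]
  refine Finset.sum_congr rfl fun k _ => ?_
  rw [← mul_assoc, Q.ys, mul_assoc, mul_assoc, ← pow_succ', ← pow_succ]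

theorem wy_pow (w : C) (n : ℕ) : ∃ W : C, (w * Q.y) ^ n = W * Q.y ^ n := by
  induction n with
  | zero => exact ⟨1, by simp⟩
  | succ n ih =>
    obtain ⟨W, hW⟩ := ih
    obtain ⟨W', hW'⟩ := y_comm Q W
    refine ⟨w * W', ?_⟩
    rw [pow_succ', hW, mul_assoc w, ← mul_assoc Q.y, hW', mul_assoc W', ← pow_succ', mul_assoc]

theorem eul_nil (a : C) : IsNilpotent (eul Q a) := by
  have h : ∃ w : C, eul Q a = w * Q.y := by
    refine ⟨∑ k ∈ Finset.range l, (k : K) • (Q.i (Q.co k a) * Q.y ^ (k - 1)), ?_⟩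
    rw [eul_apply, Finset.sum_mul]
    refine Finset.sum_congr rfl fun k _ => ?_
    rcases Nat.eq_zero_or_pos k with rfl | hk
    · simp
    · rw [smul_mul_assoc, mul_assoc, ← pow_succ, Nat.sub_add_cancel hk]
  obtain ⟨w, hw⟩ := h
  obtain ⟨W, hW⟩ := wy_pow Q w l
  exact ⟨l, by rw [hw, hW, Q.yl, mul_zero]⟩

end

/-- **CFS** -/
theorem cfs (hsgr : SgrStmt) : CfsStmt := by
  intro K S C X Ω _ _ _ _ _ _ _ _ G F l χ Q hl hχ
  obtain ⟨hσm, hσ1, hσl, hτσ, -, hd1, hd2⟩ := hsgr K S X Ω G F l χ hχ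
  have hτσk : ∀ k a, F.f.lam ((G.sg χ ^ k) a) = F.f.lam a := by
    intro k
    induction k with
    | zero => intro a; simp
    | succ k ih =>
      intro a
      rw [pow_succ', Module.End.mul_apply, hτσ, ih]
  have hσmk : ∀ k a b, (G.sg χ ^ k) (a * b) = (G.sg χ ^ k) a * (G.sg χ ^ k) b := by
    intro k
    induction k with
    | zero => intro a b; simp
    | succ k ih =>
      intro a b
      rw [pow_succ', Module.End.mul_apply, Module.End.mul_apply, Module.End.mul_apply, ih, hσm]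
  -- symmetry
  have hsym : ∀ a b, t0 Q F.f.lam (a * b) = t0 Q F.f.lam (b * a) := by
    intro a b
    have h1 : ∀ (s : S) (k : ℕ) (b : C), k < l → t0 Q F.f.lam (Q.i s * Q.y ^ k * b) =
        t0 Q F.f.lam (b * (Q.i s * Q.y ^ k)) := by
      intro s k b hk
      refine ext_gen Q (f := (t0 Q F.f.lam).comp (LinearMap.mulLeft K (Q.i s * Q.y ^ k)))
        (g := (t0 Q F.f.lam).comp (LinearMap.mulRight K (Q.i s * Q.y ^ k))) ?_ b
      intro s' k' hk'
      show t0 Q F.f.lam (Q.i s * Q.y ^ k * (Q.i s' * Q.y ^ k')) =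
        t0 Q F.f.lam (Q.i s' * Q.y ^ k' * (Q.i s * Q.y ^ k))
      rw [mul_gen Q hσm, mul_gen Q hσm, t0_gen Q hl, t0_gen Q hl, add_comm k' k]
      by_cases h : k + k' = l - 1
      · rw [if_pos h, if_pos h, F.sy, ← hτσk k', hσmk, ← Module.End.mul_apply, ← pow_add,
          add_comm k' k, h, hσl]
      · rw [if_neg h, if_neg h]
    refine ext_gen Q (f := (t0 Q F.f.lam).comp (LinearMap.mulRight K b))
      (g := (t0 Q F.f.lam).comp (LinearMap.mulLeft K b)) ?_ a
    intro s k hk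
    exact h1 s k b hk
  have hgen : ∀ (P : C → Prop), (∀ s k, k < l → P (Q.i s * Q.y ^ k)) →
      (∀ a b, P a → P b → P (a + b)) → P 0 → ∀ a, P a := by
    intro P h1 h2 h0 a
    rw [← Q.ex a]
    refine Finset.sum_induction _ P h2 h0 ?_
    intro k hk
    exact h1 _ k (Finset.mem_range.mp hk)
  refine ⟨{ lam := t0 Q F.f.lam
            b := fun p => Q.i (F.f.b p.1) * Q.y ^ (p.2 : ℕ)
            b' := fun p => Q.y ^ (l - 1 - (p.2 : ℕ)) * Q.i (F.f.b' p.1)
            h1 := ?_
            h2 := ?_ }, eul Q, fun a => rfl, fun p => rfl, fun p => rfl, hsym, ?_, eul_nil Q, ?_⟩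
  · refine hgen _ ?_ ?_ ?_
    · intro s m hm
      rw [Fintype.sum_prod_type]
      have h1 : ∀ (o : Ω) (j : Fin l), t0 Q F.f.lam (Q.y ^ (l - 1 - (j : ℕ)) * Q.i (F.f.b' o) *
          (Q.i s * Q.y ^ m)) • (Q.i (F.f.b o) * Q.y ^ (j : ℕ)) =
          if j = (⟨m, hm⟩ : Fin l) then
            F.f.lam (F.f.b' o * s) • (Q.i (F.f.b o) * Q.y ^ m) else 0 := by
        intro o j
        have hj := j.2
        rw [mul_assoc, ← mul_assoc (Q.i (F.f.b' o)), ← map_mul, ← mul_assoc, y_pow_i, mul_assoc,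
          ← pow_add, t0_gen Q hl, hτσk]
        by_cases h : j = (⟨m, hm⟩ : Fin l)
        · subst h
          rw [if_pos (by simp; omega), if_pos rfl]
        · have h' : (j : ℕ) ≠ m := fun h' => h (Fin.ext h')
          rw [if_neg (by omega), if_neg h, zero_smul]
      simp only [h1, Finset.sum_ite_eq', Finset.mem_univ, if_true]
      have h2 := congrArg (fun t => Q.i t * Q.y ^ m) (F.f.h1 s)
      simp only [map_sum, map_smul, Finset.sum_mul, smul_mul_assoc] at h2
      exact h2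
    · intro a b ha hb
      conv_rhs => rw [← ha, ← hb]
      rw [← Finset.sum_add_distrib]
      refine Finset.sum_congr rfl fun p _ => ?_
      rw [mul_add, map_add, add_smul]
    · simp
  · refine hgen _ ?_ ?_ ?_
    · intro s m hm
      rw [Fintype.sum_prod_type]
      have hm' : l - 1 - m < l := by omega
      have h1 : ∀ (o : Ω) (j : Fin l), t0 Q F.f.lam (Q.i s * Q.y ^ m *
          (Q.i (F.f.b o) * Q.y ^ (j : ℕ))) • (Q.y ^ (l - 1 - (j : ℕ)) * Q.i (F.f.b' o)) =
          if j = (⟨l - 1 - m, hm'⟩ : Fin l) then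
            F.f.lam (s * (G.sg χ ^ m) (F.f.b o)) • (Q.i ((G.sg χ ^ m) (F.f.b' o)) * Q.y ^ m)
          else 0 := by
        intro o j
        have hj := j.2
        rw [mul_gen Q hσm, t0_gen Q hl]
        by_cases h : j = (⟨l - 1 - m, hm'⟩ : Fin l)
        · subst h
          have e1 : l - 1 - (l - 1 - m) = m := by omega
          rw [if_pos (by simp; omega), if_pos rfl]
          simp only [e1]
          rw [y_pow_i]
        · have h' : (j : ℕ) ≠ l - 1 - m := fun h' => h (Fin.ext h')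
          rw [if_neg (by omega), if_neg h, zero_smul]
      simp only [h1, Finset.sum_ite_eq', Finset.mem_univ, if_true]
      have h2 := congrArg (fun t => Q.i t * Q.y ^ m) (hd2 m s)
      simp only [map_sum, map_smul, Finset.sum_mul, smul_mul_assoc] at h2
      exact h2
    · intro a b ha hb
      conv_rhs => rw [← ha, ← hb]
      rw [← Finset.sum_add_distrib]
      refine Finset.sum_congr rfl fun p _ => ?_
      rw [add_mul, map_add, add_smul]
    · simp
  · -- Leibniz
    intro a b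
    have h1 : ∀ (s : S) (k : ℕ) (b : C), k < l → eul Q (Q.i s * Q.y ^ k * b) =
        eul Q (Q.i s * Q.y ^ k) * b + Q.i s * Q.y ^ k * eul Q b := by
      intro s k b hk
      refine ext_gen Q (f := (eul Q).comp (LinearMap.mulLeft K (Q.i s * Q.y ^ k)))
        (g := LinearMap.mulLeft K (eul Q (Q.i s * Q.y ^ k)) +
          (LinearMap.mulLeft K (Q.i s * Q.y ^ k)).comp (eul Q)) ?_ b
      intro s' k' hk'
      show eul Q (Q.i s * Q.y ^ k * (Q.i s' * Q.y ^ k')) =
        eul Q (Q.i s * Q.y ^ k) * (Q.i s' * Q.y ^ k') +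
          Q.i s * Q.y ^ k * eul Q (Q.i s' * Q.y ^ k')
      rw [eul_gen, eul_gen, mul_gen Q hσm, eul_gen, smul_mul_assoc, mul_smul_comm,
        mul_gen Q hσm, ← add_smul, Nat.cast_add]
    refine ext_gen Q (f := (eul Q).comp (LinearMap.mulRight K b))
      (g := (LinearMap.mulRight K b).comp (eul Q) + LinearMap.mulRight K (eul Q b)) ?_ a
    intro s k hk
    exact h1 s k b hk
  · intro a
    refine ext_gen Q (f := (t0 Q F.f.lam).comp (eul Q))
      (g := ((l - 1 : ℕ) : K) • t0 Q F.f.lam) ?_ a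
    intro s k hk
    show t0 Q F.f.lam (eul Q (Q.i s * Q.y ^ k)) =
      ((l - 1 : ℕ) : K) * t0 Q F.f.lam (Q.i s * Q.y ^ k)
    rw [eul_gen, map_smul, t0_gen Q hl, smul_eq_mul]
    by_cases h : k = l - 1
    · rw [if_pos h, h]
    · rw [if_neg h, mul_zero, mul_zero]

end Pool.Agent.PFE.H25
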