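import Pool.Agent.PFE.StmtsE2b
import Pool.Agent.Helper30_PFD.UNM
import Pool.Agent.Helper49_PFD.UNG

/-! Squad PFE, row HUL: homogeneous units lift. -/

noncomputable section

namespace Pool.Agent.PFE.H25

open Pool.Agent.PFD.D2

theorem hul : HulStmt := by
  intro R F S S0 X _ _ c _ _ _ _ _ _ _ _ G G0 fs hc hu x
  obtain ⟨g0, g0', h1, h2, h3⟩ := hu x
  obtain ⟨s, hs⟩ := fs.surj g0
  have hq : fs.q (G.c x s) = g0 := by rw [hc, hs, h1]
  have hun : IsUnit (G.c x s) := by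
    apply Pool.Agent.PFD.D4.H30.unm Pool.Agent.PFD.D2.H49.ung R F S0 S c fs
    rw [hq]
    exact isUnit_iff_exists.2 ⟨g0', h2, h3⟩
  obtain ⟨g', h4, h5⟩ := isUnit_iff_exists.1 hun
  exact ⟨G.c x s, g', G.ci x s, h4, h5⟩

end Pool.Agent.PFE.H25
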