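import Pool.Agent.PFE.StmtsE2b

/-! Squad PFE, row S1Y: the centre of the part of degree `1` lifts. -/

open scoped BigOperators

noncomputable section

namespace Pool.Agent.PFE.H25

open Pool.Agent.PFD.D2

section gr

variable {R S X : Type} [CommRing R] [Ring S] [Algebra R S] [Group X] [Fintype X]

theorem s1y_lm (G : GS R S X) (a : S) (ha : G.c 1 a = a) (x : X) (s : S) :
    G.c x (a * s) = a * G.c x s := by
  classical
  have h1 : ∀ x', G.c x' (a * G.c x' s) = a * G.c x' s := by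
    intro x'
    have h := G.cm 1 x' a s
    rw [one_mul, ha] at h
    exact h
  have h2 : ∀ x', G.c x (a * G.c x' s) = if x' = x then a * G.c x s else 0 := by
    intro x'
    split_ifs with hx
    · rw [hx]; exact h1 x
    · rw [← h1 x']
      exact G.co x x' _ (fun h => hx h.symm)
  calc G.c x (a * s) = G.c x (a * ∑ x', G.c x' s) := by rw [G.cs]
    _ = ∑ x', G.c x (a * G.c x' s) := by rw [Finset.mul_sum, map_sum]
    _ = ∑ x', if x' = x then a * G.c x s else 0 := Finset.sum_congr rfl fun x' _ => h2 x'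
    _ = a * G.c x s := by simp

theorem s1y_rm (G : GS R S X) (a : S) (ha : G.c 1 a = a) (x : X) (s : S) :
    G.c x (s * a) = G.c x s * a := by
  classical
  have h1 : ∀ x', G.c x' (G.c x' s * a) = G.c x' s * a := by
    intro x'
    have h := G.cm x' 1 s a
    rw [mul_one, ha] at h
    exact h
  have h2 : ∀ x', G.c x (G.c x' s * a) = if x' = x then G.c x s * a else 0 := by
    intro x'
    split_ifs with hx
    · rw [hx]; exact h1 x
    · rw [← h1 x']
      exact G.co x x' _ (fun h => hx h.symm)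
  calc G.c x (s * a) = G.c x ((∑ x', G.c x' s) * a) := by rw [G.cs]
    _ = ∑ x', G.c x (G.c x' s * a) := by rw [Finset.sum_mul, map_sum]
    _ = ∑ x', if x' = x then G.c x s * a else 0 := Finset.sum_congr rfl fun x' _ => h2 x'
    _ = G.c x s * a := by simp

theorem s1y_mul (G : GS R S X) {a b : S} (ha : G.c 1 a = a) (hb : G.c 1 b = b) :
    G.c 1 (a * b) = a * b := by
  rw [s1y_lm G a ha, hb]

end gr

section tr

variable {R S X Ω W : Type} [CommRing R] [Ring S] [Algebra R S] [Group X] [Fintype X]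
  [DecidableEq X] [Fintype Ω] [CommGroup W] [Fintype W] [MulAction (W × W) Ω] {G : GS R S X}

theorem s1y_b (E : WS Ω W G) {o : Ω} (h : E.deg o = 1) : G.c 1 (E.f.b o) = E.f.b o := by
  have h1 := E.gb o
  rw [h] at h1
  exact h1

theorem s1y_b' (E : WS Ω W G) {o : Ω} (h : E.deg o = 1) : G.c 1 (E.f.b' o) = E.f.b' o := by
  have h1 := E.gb' o
  rw [h, inv_one] at h1
  exact h1

/-- `lam` of an element of degree `x ≠ 1` is `0` -/
theorem s1y_lam0 (E : WS Ω W G) {x : X} (hx : x ≠ 1) {s : S} (h : G.c x s = s) :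
    E.f.lam s = 0 := by
  rw [← h]
  exact E.t1 x s hx

theorem s1y_e1 (E : WS Ω W G) {a : S} (ha : G.c 1 a = a) {o : Ω} (ho : E.deg o = 1) :
    a * E.f.b o = ∑ o', if E.deg o' = 1 then E.f.lam (E.f.b' o' * (a * E.f.b o)) • E.f.b o'
      else 0 := by
  have hab : G.c 1 (a * E.f.b o) = a * E.f.b o := s1y_mul G ha (s1y_b E ho)
  calc a * E.f.b o = ∑ o', E.f.lam (E.f.b' o' * (a * E.f.b o)) • E.f.b o' := (E.f.h1 _).symm
    _ = _ := by
      refine Finset.sum_congr rfl fun o' _ => ?_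
      split_ifs with h
      · rfl
      · have h3 : G.c (E.deg o')⁻¹ (E.f.b' o' * (a * E.f.b o)) = E.f.b' o' * (a * E.f.b o) := by
          rw [s1y_rm G _ hab, E.gb']
        rw [s1y_lam0 E (fun h' => h (inv_eq_one.1 h')) h3, zero_smul]

theorem s1y_e2 (E : WS Ω W G) {a : S} (ha : G.c 1 a = a) {o' : Ω} (ho : E.deg o' = 1) :
    E.f.b' o' * a = ∑ o, if E.deg o = 1 then E.f.lam (E.f.b' o' * (a * E.f.b o)) • E.f.b' o
      else 0 := by
  have hab : G.c 1 (E.f.b' o' * a) = E.f.b' o' * a := s1y_mul G (s1y_b' E ho) ha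
  calc E.f.b' o' * a = ∑ o, E.f.lam ((E.f.b' o' * a) * E.f.b o) • E.f.b' o := (E.f.h2 _).symm
    _ = _ := by
      refine Finset.sum_congr rfl fun o _ => ?_
      rw [mul_assoc]
      split_ifs with h
      · rfl
      · have h3 : G.c (E.deg o) (E.f.b' o' * (a * E.f.b o)) = E.f.b' o' * (a * E.f.b o) := by
          rw [← mul_assoc, s1y_lm G _ hab, E.gb]
        rw [s1y_lam0 E h h3, zero_smul]

/-- the sum over all `o` of degree `1` commutes with the elements of degree `1` -/
theorem s1y_cen (E : WS Ω W G) (s : S) {a : S} (ha : G.c 1 a = a) :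
    a * (∑ o, if E.deg o = 1 then E.f.b o * s * E.f.b' o else 0) =
      (∑ o, if E.deg o = 1 then E.f.b o * s * E.f.b' o else 0) * a := by
  have hl : a * (∑ o, if E.deg o = 1 then E.f.b o * s * E.f.b' o else 0) =
      ∑ o, ∑ o', if E.deg o = 1 then (if E.deg o' = 1 then
        E.f.lam (E.f.b' o' * (a * E.f.b o)) • (E.f.b o' * s * E.f.b' o) else 0) else 0 := by
    rw [Finset.mul_sum]
    refine Finset.sum_congr rfl fun o _ => ?_
    split_ifs with h
    · calc a * (E.f.b o * s * E.f.b' o) = (a * E.f.b o) * (s * E.f.b' o) := by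
            simp only [mul_assoc]
        _ = _ := by
            rw [s1y_e1 E ha h, Finset.sum_mul]
            refine Finset.sum_congr rfl fun o' _ => ?_
            split_ifs with h'
            · rw [← s1y_e1 E ha h, smul_mul_assoc, mul_assoc]
            · rw [zero_mul]
    · simp
  have hr : (∑ o, if E.deg o = 1 then E.f.b o * s * E.f.b' o else 0) * a =
      ∑ o', ∑ o, if E.deg o = 1 then (if E.deg o' = 1 then
        E.f.lam (E.f.b' o' * (a * E.f.b o)) • (E.f.b o' * s * E.f.b' o) else 0) else 0 := by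
    rw [Finset.sum_mul]
    refine Finset.sum_congr rfl fun o' _ => ?_
    split_ifs with h
    · calc E.f.b o' * s * E.f.b' o' * a = (E.f.b o' * s) * (E.f.b' o' * a) := by
            simp only [mul_assoc]
        _ = _ := by
            rw [s1y_e2 E ha h, Finset.mul_sum]
            refine Finset.sum_congr rfl fun o _ => ?_
            split_ifs with h'
            · rw [mul_smul_comm]
            · rw [mul_zero]
    · simp
  rw [hl, hr, Finset.sum_comm]

theorem s1y_H (E : WS Ω W G) {s : S} (hs : ∀ w, E.om w * s = s * E.om w) (w : W) (t : Ω) :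
    (if E.deg (((1, w) : W × W) • t) = 1 then
      E.f.b (((1, w) : W × W) • t) * s * E.f.b' (((1, w) : W × W) • t) else 0) =
      if E.deg t = 1 then E.f.b t * s * E.f.b' t else 0 := by
  rw [E.dg, E.bw, E.bw']
  split_ifs with h
  · have h1 : E.om w⁻¹ * s * E.om w = s := by
      rw [hs, mul_assoc, ← map_mul, inv_mul_cancel, map_one, mul_one]
    show E.om 1 * E.f.b t * E.om w⁻¹ * s * (E.om w * E.f.b' t * E.om 1⁻¹) = _
    rw [inv_one, map_one, one_mul, mul_one]
    calc E.f.b t * E.om w⁻¹ * s * (E.om w * E.f.b' t)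
        = E.f.b t * (E.om w⁻¹ * s * E.om w) * E.f.b' t := by simp only [mul_assoc]
      _ = _ := by rw [h1]
  · rfl

theorem s1y_sum (E : WS Ω W G) {s : S} (hs : ∀ w, E.om w * s = s * E.om w) (T : Finset Ω)
    (hT : ∀ (M : Type) [AddCommMonoid M] (H : Ω → M),
      ∑ o, H o = ∑ t ∈ T, ∑ w : W, H (((1, w) : W × W) • t)) :
    (∑ o, if E.deg o = 1 then E.f.b o * s * E.f.b' o else 0) =
      (Fintype.card W : R) • ∑ t ∈ T, if E.deg t = 1 then E.f.b t * s * E.f.b' t else 0 := by
  rw [hT S (fun o => if E.deg o = 1 then E.f.b o * s * E.f.b' o else 0), Finset.smul_sum]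
  refine Finset.sum_congr rfl fun t _ => ?_
  rw [Finset.sum_congr rfl fun w _ => s1y_H E hs w t, Finset.sum_const, Finset.card_univ,
    Nat.cast_smul_eq_nsmul]

theorem s1y_can [IsDomain R] [CharZero R] [Module.Free R S] {n : ℕ} (hn : n ≠ 0) {x y : S}
    (h : (n : R) • x = (n : R) • y) : x = y := by
  apply (Module.Free.chooseBasis R S).repr.injective
  ext i
  have h1 := congrArg (fun z => (Module.Free.chooseBasis R S).repr z i) h
  simp only [map_smul, Finsupp.smul_apply, smul_eq_mul] at h1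
  exact mul_left_cancel₀ (Nat.cast_ne_zero.2 hn) h1

theorem s1y_RW [IsDomain R] [CharZero R] [Module.Free R S] (E : WS Ω W G) {s : S}
    (hs : ∀ w, E.om w * s = s * E.om w) (T : Finset Ω)
    (hT : ∀ (M : Type) [AddCommMonoid M] (H : Ω → M),
      ∑ o, H o = ∑ t ∈ T, ∑ w : W, H (((1, w) : W × W) • t)) {a : S} (ha : G.c 1 a = a) :
    a * (∑ t ∈ T, if E.deg t = 1 then E.f.b t * s * E.f.b' t else 0) =
      (∑ t ∈ T, if E.deg t = 1 then E.f.b t * s * E.f.b' t else 0) * a := by
  have h := s1y_cen E s ha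
  rw [s1y_sum E hs T hT, mul_smul_comm, smul_mul_assoc] at h
  exact s1y_can Fintype.card_ne_zero h

theorem s1y_deg (E : WS Ω W G) {s : S} (hs : G.c 1 s = s) (T : Finset Ω) :
    G.c 1 (∑ t ∈ T, if E.deg t = 1 then E.f.b t * s * E.f.b' t else 0) =
      ∑ t ∈ T, if E.deg t = 1 then E.f.b t * s * E.f.b' t else 0 := by
  rw [map_sum]
  refine Finset.sum_congr rfl fun t _ => ?_
  split_ifs with h
  · exact s1y_mul G (s1y_mul G (s1y_b E h) hs) (s1y_b' E h)
  · exact map_zero _

end tr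

theorem s1y (hwfx : WfxStmt) : S1yStmt := by
  intro R F S S0 X Ω W _ _ _ _ c _ _ _ _ _ _ _ _ _ _ _ _ _ G G0 E fs hc T hT hun z0 hz0
  have hκ : c.κ c.π = 0 := (c.ker c.π).2 ⟨1, (mul_one _).symm⟩
  have hqπ : ∀ t : S, fs.q (c.π • t) = 0 := by
    intro t
    rw [Algebra.smul_def, map_mul, fs.sc, hκ, map_zero, zero_mul]
  have hq1 : ∀ a : S, G.c 1 a = a → G0.c 1 (fs.q a) = fs.q a := by
    intro a ha
    rw [← hc, ha]
  have hz1 : G0.c 1 (z0 : S0) = (z0 : S0) := z0.2
  have hz2 : ∀ a : S, G.c 1 a = a → (z0 : S0) * fs.q a = fs.q a * (z0 : S0) := by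
    intro a ha
    exact congrArg Subtype.val (hz0 ⟨fs.q a, hq1 a ha⟩)
  obtain ⟨s1, hs1⟩ := fs.surj (z0 : S0)
  have hs1' : fs.q (G.c 1 s1) = (z0 : S0) := by rw [hc, hs1, hz1]
  obtain ⟨s', hs', t', ht'⟩ := hwfx R S X Ω W G E c.π (G.c 1 s1) (by
    intro w
    apply fs.ker
    rw [map_sub, map_mul, map_mul, hs1', hz2 _ (E.o1 w), sub_self])
  have hqs' : fs.q s' = (z0 : S0) := by
    have h : s' = G.c 1 s1 + c.π • t' := by rw [← ht']; abel
    rw [h, map_add, hqπ, add_zero, hs1']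
  have hs2 : ∀ w, E.om w * G.c 1 s' = G.c 1 s' * E.om w := by
    intro w
    rw [← s1y_lm G _ (E.o1 w), ← s1y_rm G _ (E.o1 w), hs']
  have hs2d : G.c 1 (G.c 1 s') = G.c 1 s' := G.ci 1 s'
  have hqs2 : fs.q (G.c 1 s') = (z0 : S0) := by rw [hc, hqs', hz1]
  have hK : (∑ t ∈ T, if E.deg t = 1 then E.f.b t * E.f.b' t else 0) =
      ∑ t ∈ T, if E.deg t = 1 then E.f.b t * 1 * E.f.b' t else 0 := by
    refine Finset.sum_congr rfl fun t _ => ?_
    rw [mul_one]
  rw [hK] at hun
  have h1c : ∀ w, E.om w * (1 : S) = 1 * E.om w := fun w => by rw [mul_one, one_mul]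
  obtain ⟨u', hu1, hu2⟩ := isUnit_iff_exists.1 hun
  have hKd := s1y_deg E G.c1 T
  have hu' : G.c 1 u' = u' := by
    have h2 : (∑ t ∈ T, if E.deg t = 1 then E.f.b t * 1 * E.f.b' t else 0) * G.c 1 u' = 1 := by
      rw [← s1y_lm G _ hKd, hu1, G.c1]
    exact (left_inv_eq_right_inv hu2 h2).symm
  have hKc : ∀ a : S, G.c 1 a = a → a * u' = u' * a := by
    intro a ha
    have h2 := s1y_RW E h1c T hT ha
    calc a * u' = (u' * (∑ t ∈ T, if E.deg t = 1 then E.f.b t * 1 * E.f.b' t else 0)) *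
          (a * u') := by rw [hu2, one_mul]
      _ = u' * ((∑ t ∈ T, if E.deg t = 1 then E.f.b t * 1 * E.f.b' t else 0) * a) * u' := by
          simp only [mul_assoc]
      _ = u' * (a * (∑ t ∈ T, if E.deg t = 1 then E.f.b t * 1 * E.f.b' t else 0)) * u' := by
          rw [h2]
      _ = u' * a * ((∑ t ∈ T, if E.deg t = 1 then E.f.b t * 1 * E.f.b' t else 0) * u') := by
          simp only [mul_assoc]
      _ = u' * a := by rw [hu1, mul_one]
  have hzd : G.c 1 ((∑ t ∈ T, if E.deg t = 1 then E.f.b t * G.c 1 s' * E.f.b' t else 0) * u') =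
      (∑ t ∈ T, if E.deg t = 1 then E.f.b t * G.c 1 s' * E.f.b' t else 0) * u' :=
    s1y_mul G (s1y_deg E hs2d T) hu'
  refine ⟨⟨(∑ t ∈ T, if E.deg t = 1 then E.f.b t * G.c 1 s' * E.f.b' t else 0) * u', hzd⟩,
    ?_, ?_⟩
  · intro a
    apply Subtype.ext
    have ha : G.c 1 (a : S) = (a : S) := a.2
    show (∑ t ∈ T, if E.deg t = 1 then E.f.b t * G.c 1 s' * E.f.b' t else 0) * u' * (a : S) =
      (a : S) * ((∑ t ∈ T, if E.deg t = 1 then E.f.b t * G.c 1 s' * E.f.b' t else 0) * u')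
    rw [mul_assoc, ← hKc _ ha, ← mul_assoc, ← s1y_RW E hs2 T hT ha, mul_assoc]
  · show fs.q ((∑ t ∈ T, if E.deg t = 1 then E.f.b t * G.c 1 s' * E.f.b' t else 0) * u') =
      (z0 : S0)
    have h3 : fs.q (∑ t ∈ T, if E.deg t = 1 then E.f.b t * G.c 1 s' * E.f.b' t else 0) =
        (z0 : S0) * fs.q (∑ t ∈ T, if E.deg t = 1 then E.f.b t * 1 * E.f.b' t else 0) := by
      rw [map_sum, map_sum, Finset.mul_sum]
      refine Finset.sum_congr rfl fun t _ => ?_
      split_ifs with h
      · rw [map_mul, map_mul, hqs2, mul_one, map_mul, ← mul_assoc, hz2 _ (s1y_b E h)]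
      · rw [map_zero, mul_zero]
    rw [map_mul, h3, mul_assoc, ← map_mul, hu1, map_one, mul_one]

end Pool.Agent.PFE.H25
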