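import Pool.Agent.PFE.StmtsS

/-! Squad PFE, row SGU: two models of the graded algebra `S(A)` are isomorphic. -/

set_option autoImplicit false

open scoped BigOperators TensorProduct

noncomputable section

namespace Pool.Agent.PFE.H25

open Pool.Agent.PFC Pool.Agent.PFE Pool.Agent.PFE.S

variable {F V V1 C A S S' : Type} [Field F] [CommGroup V] [CommGroup V1] [Fintype V1]
    [CommGroup C] [Fintype C] [Ring A] [Algebra F A] [Ring S] [Algebra F S] [Ring S']
    [Algebra F S']

theorem tj_apply (α : V →* A) (i : V1 →* V) (σ : MulAut V1) (v : V1) (a : A) :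
    tj F α i σ v a = α (i v) * (a * α (i (σ v))⁻¹) := rfl

theorem mem_Nt (α : V →* A) (i : V1 →* V) (σ : MulAut V1) (a : A) :
    a ∈ Nt F α i σ ↔ ∀ v, α (i v) * a = a * α (i (σ v)) := by
  constructor
  · intro h v
    have h1 : tj F α i σ v a = a := h v (Subgroup.mem_top _)
    rw [tj_apply] at h1
    have h2 : α (i (σ v))⁻¹ * α (i (σ v)) = 1 := by rw [← map_mul, inv_mul_cancel, map_one]
    calc α (i v) * a = α (i v) * (a * α (i (σ v))⁻¹) * α (i (σ v)) := by
          rw [mul_assoc, mul_assoc, h2, mul_one]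
      _ = a * α (i (σ v)) := by rw [h1]
  · intro h v _
    rw [tj_apply, ← mul_assoc, h v, mul_assoc, ← map_mul, mul_inv_cancel, map_one, mul_one]

theorem mul_Nt (α : V →* A) (i : V1 →* V) (θ : C →* MulAut V1) {c d : C} {a b : A}
    (ha : a ∈ Nt F α i (θ c)) (hb : b ∈ Nt F α i (θ d)) : a * b ∈ Nt F α i (θ (c * d)) := by
  rw [mem_Nt] at ha hb ⊢
  intro v
  rw [← mul_assoc, ha, mul_assoc, hb, ← mul_assoc, mul_comm c d, map_mul, MulAut.mul_apply]

variable {α : V →* A} {i : V1 →* V} {θ : C →* MulAut V1} {q : C → (A →ₗ[F] S)}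
    {q' : C → (A →ₗ[F] S')}

theorem key (h : SG F α i θ q) (h' : SG F α i θ q') {a b : C → A}
    (ha : ∀ c, a c ∈ Nt F α i (θ c)) (hb : ∀ c, b c ∈ Nt F α i (θ c))
    (hab : ∑ c, q c (a c) = ∑ c, q c (b c)) : ∑ c, q' c (a c) = ∑ c, q' c (b c) := by
  have h1 : ∀ c, a c - b c ∈ Nt F α i (θ c) := fun c => Submodule.sub_mem _ (ha c) (hb c)
  have h2 : ∑ c, q c (a c - b c) = 0 := by
    simp only [map_sub, Finset.sum_sub_distrib]
    rw [hab, sub_self]
  have h3 := (h'.ker (fun c => a c - b c) h1).mpr ((h.ker (fun c => a c - b c) h1).mp h2)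
  simp only [map_sub, Finset.sum_sub_distrib] at h3
  exact sub_eq_zero.mp h3

theorem exists_hom (h : SG F α i θ q) (h' : SG F α i θ q') :
    ∃ e : S →ₐ[F] S', ∀ c, ∀ a ∈ Nt F α i (θ c), e (q c a) = q' c a := by
  classical
  choose a ha hs using h.sur
  have hone : (1 : A) ∈ Nt F α i (θ 1) := by
    rw [mem_Nt]
    intro v
    rw [map_one, MulAut.one_apply, mul_one, one_mul]
  let e0 : S →ₗ[F] S' :=
    { toFun := fun s => ∑ c, q' c (a s c)
      map_add' := by
        intro s t
        have h1 := key h h' (a := a (s + t)) (b := fun c => a s c + a t c) (ha _)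
          (fun c => Submodule.add_mem _ (ha s c) (ha t c)) (by
            simp only [map_add, Finset.sum_add_distrib]
            rw [hs, hs, hs])
        simp only [map_add, Finset.sum_add_distrib] at h1
        exact h1
      map_smul' := by
        intro r s
        have h1 := key h h' (a := a (r • s)) (b := fun c => r • a s c) (ha _)
          (fun c => Submodule.smul_mem _ _ (ha s c)) (by
            simp only [map_smul, ← Finset.smul_sum]
            rw [hs, hs])
        simp only [map_smul, ← Finset.smul_sum] at h1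
        exact h1 }
  have he : ∀ c, ∀ x ∈ Nt F α i (θ c), e0 (q c x) = q' c x := by
    intro c x hx
    have h0 : ∀ (T : Type) [AddCommGroup T] [Module F T] (p : C → (A →ₗ[F] T)),
        ∑ d, p d ((Pi.single c x : C → A) d) = p c x := by
      intro T _ _ p
      rw [Finset.sum_eq_single c]
      · rw [Pi.single_eq_same]
      · intro d _ hd
        rw [Pi.single_eq_of_ne hd, map_zero]
      · intro hc
        exact absurd (Finset.mem_univ c) hc
    have h1 := key h h' (a := a (q c x)) (b := (Pi.single c x : C → A)) (ha _) (by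
      intro d
      by_cases hd : d = c
      · subst hd
        rw [Pi.single_eq_same]
        exact hx
      · rw [Pi.single_eq_of_ne hd]
        exact Submodule.zero_mem _) (by rw [hs, h0])
    rw [h0] at h1
    exact h1
  refine ⟨AlgHom.ofLinearMap e0 ?_ ?_, he⟩
  · rw [← h.one, he 1 1 hone, h'.one]
  · intro s t
    rw [← hs s, ← hs t, Finset.sum_mul_sum]
    simp only [map_sum]
    rw [Finset.sum_mul_sum]
    refine Finset.sum_congr rfl fun c _ => Finset.sum_congr rfl fun d _ => ?_
    rw [← h.mul c d _ (ha s c) _ (ha t d), he _ _ (mul_Nt α i θ (ha s c) (ha t d)),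
      h'.mul c d _ (ha s c) _ (ha t d), he c _ (ha s c), he d _ (ha t d)]

/-- **SGU** -/
theorem sgu : SguStmt := by
  intro F V V1 C A S S' _ _ _ _ _ _ _ _ _ _ _ _ α i θ q q' h h'
  obtain ⟨e, he⟩ := exists_hom h h'
  obtain ⟨f, hf⟩ := exists_hom h' h
  refine ⟨AlgEquiv.ofAlgHom e f ?_ ?_, he⟩
  · apply AlgHom.ext
    intro s
    obtain ⟨a, ha, rfl⟩ := h'.sur s
    simp only [AlgHom.comp_apply, map_sum, AlgHom.id_apply]
    refine Finset.sum_congr rfl fun c _ => ?_
    rw [hf c _ (ha c), he c _ (ha c)]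
  · apply AlgHom.ext
    intro s
    obtain ⟨a, ha, rfl⟩ := h.sur s
    simp only [AlgHom.comp_apply, map_sum, AlgHom.id_apply]
    refine Finset.sum_congr rfl fun c _ => ?_
    rw [he c _ (ha c), hf c _ (ha c)]

end Pool.Agent.PFE.H25
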